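import Pool.Agent.helper50.BS.SpecT

/-! TB5: the sum `Z_U` as a sum over sets. -/

set_option autoImplicit false

open Finset

open scoped Classical

namespace Pool.Agent.BS

theorem TB5 (h4 : TB4_stmt) : TB5_stmt := by
  intro g R _ x y u PP W U hP hU
  rw [← Finset.sum_fiberwise_of_maps_to
    (s := (g.X0 W).powerset.filter (fun A => A.toRight ∩ g.beta PP ⊆ U)) (t := U.powerset)
    (g := fun A => A.toRight ∩ g.beta PP)]
  · apply Finset.sum_congr rfl
    intro S hS
    have hSU := Finset.mem_powerset.1 hS
    rw [h4 g R x y PP W S hP (hSU.trans hU), Finset.mul_sum]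
    have hf : ((g.X0 W).powerset.filter (fun A => A.toRight ∩ g.beta PP ⊆ U)).filter
        (fun A => A.toRight ∩ g.beta PP = S) =
        (g.X0 W).powerset.filter (fun A => A.toRight ∩ g.beta PP = S) := by
      ext A
      simp only [Finset.mem_filter]
      constructor
      · rintro ⟨⟨h1, _⟩, h3⟩
        exact ⟨h1, h3⟩
      · rintro ⟨h1, h3⟩
        exact ⟨⟨h1, h3 ▸ hSU⟩, h3⟩
    rw [hf]
    apply Finset.sum_congr rfl
    intro A hA
    have hAS := (Finset.mem_filter.1 hA).2
    unfold om bB
    rw [hAS]
    ring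
  · intro A hA
    exact Finset.mem_powerset.2 (Finset.mem_filter.1 hA).2

end Pool.Agent.BS
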