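import Pool.Agent.helper50.BS.SpecT

/-! TC3: the list for large beta. -/

set_option autoImplicit false

open Finset

open scoped Classical

namespace Pool.Agent.BS

theorem TC3 (h1 : TC1_stmt) (h2 : TC2_stmt) : TC3_stmt := by
  intro g k PP W K LL hP hdl hT hL1 hL2 hK hC hcW h3 h6 hne
  rcases h1 g k PP W K hP hdl hT hK hcW with ⟨ha, hb, hc⟩ | hbad
  · obtain ⟨q1, q2⟩ := h2 g K hC
    rcases Finset.eq_empty_or_nonempty K.toLeft with h0 | h0
    · left
      obtain ⟨e, he⟩ := q1 h0
      obtain ⟨e', he'⟩ := hne
      have h5 : e' = e := by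
        have := (Finset.mem_inter.1 he').1
        rw [Finset.mem_toRight, he, Finset.mem_singleton] at this
        exact Sum.inr_injective this
      refine ⟨e', (Finset.mem_inter.1 he').2, ?_⟩
      apply Finset.Subset.antisymm
      · intro x hx
        have := (Finset.mem_inter.1 hx).1
        rw [Finset.mem_toRight, he, Finset.mem_singleton] at this
        rw [Finset.mem_singleton, h5]
        exact Sum.inr_injective this
      · intro x hx
        rw [Finset.mem_singleton.1 hx]
        exact he'
    · right
      obtain ⟨r1, r2⟩ := q2 h0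
      have hsub : K.toLeft ⊆ W := by
        intro v hv
        have := hK (Finset.mem_toLeft.1 hv)
        unfold IG.X0 at this
        simpa using this
      obtain ⟨R, hR, hKR⟩ := hL1 K.toLeft hsub ha r1 hb
      obtain ⟨s1, s2, s3⟩ := hL2 R hR
      refine ⟨R, hR, ?_, ?_⟩
      · intro e he
        rw [Finset.mem_inter] at he
        rw [Finset.mem_filter]
        refine ⟨he.2, ?_⟩
        rcases r2 e he.1 with h | h
        · exact Or.inl (hKR h)
        · exact Or.inr (hKR h)
      · exact (hT R s1 s2 s3).trans s3
  · exfalso
    have h7 : (g.beta PP).card ≤ (g.beta PP \ K.toRight).card + (K.toRight ∩ g.beta PP).card := by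
      rw [Finset.inter_comm, Finset.card_sdiff_add_card_inter]
    omega

end Pool.Agent.BS
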