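import Pool.Agent.helper50.BS.SpecT

/-! TR4: small moduli detect small numbers. -/

set_option autoImplicit false

open Finset

open scoped Classical

namespace Pool.Agent.BS

theorem TR4 : TR4_stmt := by
  intro B N hN hlt
  by_contra hcon
  push Not at hcon
  have hdvd : ∀ m, 2 ≤ m → m ≤ 2 * B + 2 → m ∣ N := by
    intro m h1 h2
    exact (ZMod.natCast_eq_zero_iff N m).1 (hcon m h1 h2)
  have hN0 : N ≠ 0 := hN.ne'
  have hc0 : Nat.centralBinom (B + 1) ≠ 0 := Nat.centralBinom_ne_zero _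
  have hcd : Nat.centralBinom (B + 1) ∣ N := by
    rw [← Nat.factorization_prime_le_iff_dvd hc0 hN0]
    intro p hp
    have h1 : p ^ ((Nat.centralBinom (B + 1)).factorization p) ≤ 2 * (B + 1) := by
      rw [Nat.centralBinom_eq_two_mul_choose]
      exact Nat.pow_factorization_choose_le (by omega)
    rcases Nat.eq_zero_or_pos ((Nat.centralBinom (B + 1)).factorization p) with h0 | h0
    · rw [h0]; exact Nat.zero_le _
    · have h2 : 2 ≤ p ^ ((Nat.centralBinom (B + 1)).factorization p) :=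
        hp.two_le.trans (Nat.le_self_pow h0.ne' p)
      have h3 := hdvd _ h2 (by omega)
      exact (hp.pow_dvd_iff_le_factorization hN0).1 h3
  have hle : Nat.centralBinom (B + 1) ≤ N := Nat.le_of_dvd hN hcd
  have h4 : 4 ^ (B + 1) ≤ 2 * (B + 1) * Nat.centralBinom (B + 1) :=
    Nat.four_pow_le_two_mul_self_mul_centralBinom (B + 1) (by omega)
  have h5 : B < 2 ^ B := Nat.lt_two_pow_self
  have h6 : (4 : ℕ) ^ (B + 1) = 4 * (2 ^ B * 2 ^ B) := by
    rw [pow_succ, show (4 : ℕ) = 2 ^ 2 by norm_num, ← pow_mul, two_mul, pow_add]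
    ring
  rw [h6] at h4
  have h7 : 2 * (B + 1) * Nat.centralBinom (B + 1) ≤ 2 * 2 ^ B * N := by
    apply Nat.mul_le_mul _ hle
    omega
  have h8 : 2 * 2 ^ B * N < 2 * 2 ^ B * 2 ^ B := by
    apply Nat.mul_lt_mul_of_pos_left hlt
    positivity
  have h9 : 0 < 2 ^ B * 2 ^ B := by positivity
  nlinarith

end Pool.Agent.BS
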